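import Mathlib
import Pool.Agent.CPT.StmtsA

set_option autoImplicit false

namespace Pool.Agent.CPT.H25

open MvPolynomial Pool.Agent.BSH Pool.Agent.CPT

theorem aub_one_mem {E A : Type} [Field E] [CommRing A] [Algebra E A] (B : Set A) (l : List A) :
    (1 : A) ∈ sp E B l :=
  Submodule.subset_span (Or.inl (Or.inl rfl))

theorem aub_base_mem {E A : Type} [Field E] [CommRing A] [Algebra E A] (B : Set A) (l : List A)
    {x : A} (hx : x ∈ B) : x ∈ sp E B l :=
  Submodule.subset_span (Or.inl (Or.inr hx))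

theorem aub_fg {E : Type} [Field E] {n : ℕ} (l : List (MvPolynomial (Fin n) E)) :
    (sp E (Set.range (X : Fin n → MvPolynomial (Fin n) E)) l).FG := by
  unfold sp
  refine Submodule.fg_span ?_
  refine ((Set.finite_singleton 1).union (Set.finite_range _)).union ?_
  exact List.finite_toSet l

theorem aub_mono {E A : Type} [Field E] [CommRing A] [Algebra E A] (B : Set A) (l l' : List A) :
    sp E B l ≤ sp E B (l' ++ l) := by
  refine Submodule.span_mono ?_
  rintro x (hx | hx)
  · exact Or.inl hx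
  · exact Or.inr (List.mem_append_right _ hx)

theorem aub_pow_mono {E A : Type} [Field E] [CommRing A] [Algebra E A] {W : Submodule E A}
    (h1 : (1 : A) ∈ W) {a b : ℕ} (hab : a ≤ b) : W ^ a ≤ W ^ b := by
  have h : (1 : Submodule E A) ≤ W := Submodule.one_le.mpr h1
  exact pow_le_pow_right' h hab

theorem aub_mem_pow {E : Type} [Field E] {n : ℕ} {W : Submodule E (MvPolynomial (Fin n) E)}
    (h1 : (1 : MvPolynomial (Fin n) E) ∈ W) (hX : ∀ i, (X i : MvPolynomial (Fin n) E) ∈ W)
    (P : MvPolynomial (Fin n) E) : ∃ c : ℕ, P ∈ W ^ c := by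
  induction P using MvPolynomial.induction_on with
  | C a =>
    refine ⟨0, ?_⟩
    rw [pow_zero]
    exact Submodule.algebraMap_mem a
  | add p q hp hq =>
    obtain ⟨c, hc⟩ := hp
    obtain ⟨d, hd⟩ := hq
    exact ⟨max c d, Submodule.add_mem _ (aub_pow_mono h1 (le_max_left _ _) hc)
      (aub_pow_mono h1 (le_max_right _ _) hd)⟩
  | mul_X p i hp =>
    obtain ⟨c, hc⟩ := hp
    refine ⟨c + 1, ?_⟩
    rw [pow_succ]
    exact Submodule.mul_mem_mul hc (hX i)

theorem aub_prod_mem {E A : Type} [Field E] [CommRing A] [Algebra E A] {W : Submodule E A}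
    {n : ℕ} (f : Fin n → A) (hf : ∀ i, f i ∈ W) (α : Fin n → ℕ) (s : Finset (Fin n)) :
    ∏ i ∈ s, f i ^ α i ∈ W ^ (∑ i ∈ s, α i) := by
  classical
  induction s using Finset.induction_on with
  | empty =>
    simp only [Finset.prod_empty, Finset.sum_empty, pow_zero]
    exact Submodule.one_le.mp le_rfl
  | insert a s ha ih =>
    rw [Finset.prod_insert ha, Finset.sum_insert ha, pow_add]
    exact Submodule.mul_mem_mul (Submodule.pow_mem_pow _ (hf a) _) ih

theorem aub (hBST : BstStmt) (hLIM : LimStmt) (hNUM : NumStmt) (hCHB : ChbStmt)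
    (hHBF : HbfStmt) : AubStmt := by
  intro E _ n s N F hF hcheap hind
  obtain ⟨l, hl, hCh, hFl⟩ := hcheap
  obtain ⟨l', hl', hCh', hD⟩ := hBST E (MvPolynomial (Fin n) E) (Set.range X) l F hCh hFl
  set W : Submodule E (MvPolynomial (Fin n) E) := sp E (Set.range X) (l' ++ l) with hW
  have hFW : F ∈ W := aub_mono _ _ _ hFl
  have hdW : ∀ i, pderiv i F ∈ W := by
    intro i
    refine hD (pderiv i) ?_
    rintro _ ⟨j, rfl⟩
    refine ⟨if j = i then 1 else 0, ?_⟩
    rw [pderiv_X]
    split_ifs with h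
    · subst h; simp
    · rw [Pi.single_eq_of_ne h]; simp
  have h1W : (1 : MvPolynomial (Fin n) E) ∈ W := aub_one_mem _ _
  have hXW : ∀ i, (X i : MvPolynomial (Fin n) E) ∈ W := fun i => aub_base_mem _ _ ⟨i, rfl⟩
  have hWfg : W.FG := aub_fg _
  obtain ⟨m, hm⟩ := hind
  obtain ⟨q, hq⟩ := IsLocalization.exist_integer_multiples_of_finite
    (nonZeroDivisors (MvPolynomial (Fin n) E)) m
  choose P hP using hq
  have hq0 : (q : MvPolynomial (Fin n) E) ≠ 0 := nonZeroDivisors.ne_zero q.2
  choose cc hcc using fun j => aub_mem_pow h1W hXW (P j)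
  set c := Finset.univ.sup cc with hc
  have hPc : ∀ j, P j ∈ W ^ c := fun j =>
    aub_pow_mono h1W (Finset.le_sup (f := cc) (Finset.mem_univ j)) (hcc j)
  have halF : (al F : KK n E) ≠ 0 := by
    unfold al
    exact (map_ne_zero_iff _ (IsFractionRing.injective (MvPolynomial (Fin n) E) (KK n E))).mpr hF
  have halq : (al (q : MvPolynomial (Fin n) E) : KK n E) ≠ 0 := by
    unfold al
    exact (map_ne_zero_iff _ (IsFractionRing.injective (MvPolynomial (Fin n) E) (KK n E))).mpr hq0
  refine hLIM n (c + 1) N (8 ^ s) ?_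
  intro A
  obtain ⟨S, hScard, hS⟩ := hNUM n A
  -- the family
  let Q : Fin N × S → MvPolynomial (Fin n) E := fun p =>
    P p.1 * (F ^ (A - ∑ i, (p.2 : Fin n →₀ ℕ) i) * ∏ i, (pderiv i F) ^ ((p.2 : Fin n →₀ ℕ) i))
  have hQmem : ∀ p, Q p ∈ W ^ (c + A) := by
    intro p
    rw [pow_add]
    refine Submodule.mul_mem_mul (hPc _) ?_
    have hle := hS _ p.2.2
    have hA : W ^ A = W ^ (A - ∑ i, (p.2 : Fin n →₀ ℕ) i) * W ^ (∑ i, (p.2 : Fin n →₀ ℕ) i) := by
      rw [← pow_add]
      have : (A - ∑ i, (p.2 : Fin n →₀ ℕ) i) + ∑ i, (p.2 : Fin n →₀ ℕ) i = A := by omega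
      rw [this]
    rw [hA]
    exact Submodule.mul_mem_mul (Submodule.pow_mem_pow _ hFW _)
      (aub_prod_mem (fun i => pderiv i F) hdW _ _)
  have hQal : ∀ p, (al (Q p) : KK n E) = (al (q : MvPolynomial (Fin n) E) * al F ^ A) *
      (m p.1 * (p.2 : Fin n →₀ ℕ).prod fun i k => L F i ^ k) := by
    intro p
    have hle := hS _ p.2.2
    rw [Finsupp.prod_fintype _ _ (fun i => pow_zero _)]
    have h1 : (al (P p.1) : KK n E) = al (q : MvPolynomial (Fin n) E) * m p.1 := by
      have := hP p.1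
      unfold al
      rw [this]
      exact Algebra.smul_def _ _
    have h2 : ∏ i, (L F i : KK n E) ^ ((p.2 : Fin n →₀ ℕ) i) =
        (∏ i, (al (pderiv i F) : KK n E) ^ ((p.2 : Fin n →₀ ℕ) i)) /
          al F ^ (∑ i, (p.2 : Fin n →₀ ℕ) i) := by
      unfold L
      simp only [div_pow]
      rw [Finset.prod_div_distrib, Finset.prod_pow_eq_pow_sum]
    have h3 : (al F : KK n E) ^ A = al F ^ (A - ∑ i, (p.2 : Fin n →₀ ℕ) i) *
        al F ^ (∑ i, (p.2 : Fin n →₀ ℕ) i) := by
      rw [← pow_add]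
      have : (A - ∑ i, (p.2 : Fin n →₀ ℕ) i) + ∑ i, (p.2 : Fin n →₀ ℕ) i = A := by omega
      rw [this]
    have h4 : (al (Q p) : KK n E) = al (P p.1) * (al F ^ (A - ∑ i, (p.2 : Fin n →₀ ℕ) i) *
        ∏ i, (al (pderiv i F) : KK n E) ^ ((p.2 : Fin n →₀ ℕ) i)) := by
      simp only [Q, al, map_mul, map_pow, map_prod]
    rw [h4, h1, h2, h3]
    have hpow : (al F : KK n E) ^ (∑ i, (p.2 : Fin n →₀ ℕ) i) ≠ 0 := pow_ne_zero _ halF
    field_simp
  -- linear independence
  have hQind : LinearIndependent E Q := by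
    have hm' : LinearIndependent E (fun p : Fin N × S =>
        m p.1 * (p.2 : Fin n →₀ ℕ).prod fun i k => L F i ^ k) := by
      have := hm.comp (fun p : Fin N × S => ((p.1, (p.2 : Fin n →₀ ℕ)) : Fin N × (Fin n →₀ ℕ)))
        (by
          rintro ⟨a, b⟩ ⟨a', b'⟩ h
          simp only [Prod.mk.injEq] at h
          obtain ⟨h1, h2⟩ := h
          subst h1
          have := Subtype.ext h2
          subst this
          rfl)
      exact this
    set u : KK n E := al (q : MvPolynomial (Fin n) E) * al F ^ A with hu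
    have hu0 : u ≠ 0 := mul_ne_zero halq (pow_ne_zero _ halF)
    have h5 : LinearIndependent E (fun p : Fin N × S => u *
        (m p.1 * (p.2 : Fin n →₀ ℕ).prod fun i k => L F i ^ k)) := by
      have hk : LinearMap.ker (LinearMap.mulLeft E u) = ⊥ := by
        rw [LinearMap.ker_eq_bot]
        intro x y hxy
        simpa using mul_left_cancel₀ hu0 hxy
      exact hm'.map' (LinearMap.mulLeft E u) hk
    have h6 : LinearIndependent E (fun p : Fin N × S => (al (Q p) : KK n E)) := by
      have : (fun p : Fin N × S => (al (Q p) : KK n E)) = fun p : Fin N × S => u *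
        (m p.1 * (p.2 : Fin n →₀ ℕ).prod fun i k => L F i ^ k) := by
        funext p
        exact hQal p
      rw [this]
      exact h5
    exact LinearIndependent.of_comp
      (IsScalarTower.toAlgHom E (MvPolynomial (Fin n) E) (KK n E)).toLinearMap h6
  -- dimension count
  have hcount : N * (A + n).choose n ≤ 2 ^ (l' ++ l).length * (c + A + n).choose n := by
    refine le_trans ?_ (hHBF E n (l' ++ l) hCh' (c + A))
    have hfg : (W ^ (c + A)).FG := hWfg.pow _
    have : Module.Finite E (W ^ (c + A) : Submodule E (MvPolynomial (Fin n) E)) :=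
      Module.Finite.iff_fg.mpr hfg
    have hind2 : LinearIndependent E (fun p : Fin N × S =>
        (⟨Q p, hQmem p⟩ : (W ^ (c + A) : Submodule E (MvPolynomial (Fin n) E)))) := by
      refine LinearIndependent.of_comp (W ^ (c + A)).subtype ?_
      exact hQind
    have := hind2.fintype_card_le_finrank
    rw [Fintype.card_prod, Fintype.card_fin, Fintype.card_coe, hScard] at this
    exact this
  have hlen : (l' ++ l).length ≤ 3 * s := by
    rw [List.length_append]; omega
  have h8 : 2 ^ (l' ++ l).length ≤ 8 ^ s := by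
    calc 2 ^ (l' ++ l).length ≤ 2 ^ (3 * s) := Nat.pow_le_pow_right (by norm_num) hlen
      _ = 8 ^ s := by rw [pow_mul]; norm_num
  have hpos : 0 < (A + n).choose n := Nat.choose_pos (Nat.le_add_left _ _)
  have hchb := hCHB n A c
  have heq : c + A + n = A + c + n := by omega
  rw [heq] at hcount
  have key : (A + n).choose n * ((A + 1) ^ n * N) ≤ (A + n).choose n * (8 ^ s * (A + (c + 1)) ^ n) := by
    calc (A + n).choose n * ((A + 1) ^ n * N) = (N * (A + n).choose n) * (A + 1) ^ n := by ring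
      _ ≤ (2 ^ (l' ++ l).length * (A + c + n).choose n) * (A + 1) ^ n :=
        Nat.mul_le_mul_right _ hcount
      _ ≤ (8 ^ s * (A + c + n).choose n) * (A + 1) ^ n :=
        Nat.mul_le_mul_right _ (Nat.mul_le_mul_right _ h8)
      _ = 8 ^ s * ((A + c + n).choose n * (A + 1) ^ n) := by ring
      _ ≤ 8 ^ s * ((A + n).choose n * (A + c + 1) ^ n) := Nat.mul_le_mul_left _ hchb
      _ = (A + n).choose n * (8 ^ s * (A + (c + 1)) ^ n) := by rw [← add_assoc]; ring
  exact Nat.le_of_mul_le_mul_left key hpos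

end Pool.Agent.CPT.H25
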