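import Pool.Agent.CPT.StmtsB

/-!
# CPT row GLU: the local elements are glued together
-/

set_option autoImplicit false

namespace Pool.Agent.CPT.H25

open Polynomial

theorem glu : GluStmt := by
  intro κ K _ _ _ a t ht u _ h
  classical
  have key : ∀ s : Finset (Fin a), ∃ (f : κ[X]) (y : K), IsCoprime f (∏ i ∈ s, (X - C (t i))) ∧
      IsIntegral κ[X] y ∧
      algebraMap κ[X] K f = algebraMap κ[X] K (∏ i ∈ s, (X - C (t i))) * y * u := by
    intro s
    induction s using Finset.induction_on with
    | empty =>
      refine ⟨0, 0, ?_, isIntegral_zero, ?_⟩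
      · rw [Finset.prod_empty]; exact isCoprime_one_right
      · simp
    | insert j s hj ih =>
      obtain ⟨f, y, hc, hy, hf⟩ := ih
      obtain ⟨fj, yj, h0, hyj, hfj⟩ := h j
      have hX : IsCoprime (∏ i ∈ s, (X - C (t i)) : κ[X]) (X - C (t j)) := by
        refine IsCoprime.prod_left fun i hi => ?_
        refine isCoprime_X_sub_C_of_isUnit_sub (isUnit_iff_ne_zero.2 (sub_ne_zero.2 ?_))
        intro he
        exact hj (ht he ▸ hi)
      have h1 : IsCoprime fj (X - C (t j)) := by
        have h2 : IsCoprime (X - C (t j)) fj := by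
          rw [(irreducible_X_sub_C (t j)).coprime_iff_not_dvd, dvd_iff_isRoot]
          exact h0
        exact h2.symm
      refine ⟨f * (X - C (t j)) + fj * ∏ i ∈ s, (X - C (t i)), y + yj, ?_, hy.add hyj, ?_⟩
      · rw [Finset.prod_insert hj]
        refine IsCoprime.mul_right ?_ ?_
        · -- with `X - C (t j)`
          have h3 : IsCoprime (fj * ∏ i ∈ s, (X - C (t i))) (X - C (t j)) := h1.mul_left hX
          have h4 := h3.add_mul_right_left f
          rwa [add_comm] at h4
        · have h3 : IsCoprime (f * (X - C (t j))) (∏ i ∈ s, (X - C (t i))) :=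
            hc.mul_left hX.symm
          exact h3.add_mul_right_left fj
      · rw [Finset.prod_insert hj, map_add, map_mul, map_mul, map_mul, hf, hfj]
        ring
  obtain ⟨f, y, hc, hy, hf⟩ := key Finset.univ
  refine ⟨∏ i, (X - C (t i)), f, y, ?_, hc, hy, hf⟩
  rw [natDegree_prod_of_monic _ _ fun i _ => monic_X_sub_C _]
  simp

end Pool.Agent.CPT.H25
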