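import Mathlib
import Pool.Agent.CPT.StmtsE

set_option autoImplicit false

namespace Pool.Agent.CPT.H25

open MvPolynomial Pool.Agent.BSH Pool.Agent.CPT

theorem hsl (hHTL : HtlStmt) (hNMB : NmbStmt) : HslStmt := by
  intro E _ _ n s M F hM hF hch
  have hM0 : (M : E) ≠ 0 := by
    exact_mod_cast (by omega : M ≠ 0)
  obtain ⟨t, ht, c, hc, hev⟩ := hHTL E n s (fun _ a => (M : E) * (a : E)) F (by
    intro i a b hab
    have h1 : (M : E) * (a : E) = (M : E) * (b : E) := hab
    exact_mod_cast mul_left_cancel₀ hM0 h1) hF hch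
  have hmem : (t, c) ∈ prs n s := ((hNMB n s).1 t c).mpr ⟨ht, hc⟩
  obtain ⟨j, hj⟩ := List.mem_iff_get.mp hmem
  refine ⟨j, ?_⟩
  rw [hj]
  have hpt : (fun i : Fin n => ptA (2 * s + 1) t (fun j => (M : E) * ((c j : ℕ) : E)) i) =
      fun i : Fin n => (M : E) * pt E (2 * s + 1) t c i := by
    funext i
    unfold ptA pt
    rw [Finset.mul_sum]
    refine Finset.sum_congr rfl fun k _ => ?_
    ring
  rw [← hpt]
  exact hev

end Pool.Agent.CPT.H25
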