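import Mathlib
import Pool.Agent.CPT.StmtsC

set_option autoImplicit false

namespace Pool.Agent.CPT.H25

open MvPolynomial Pool.Agent.BSH Pool.Agent.CPT

theorem hsm (hHIT : Pool.Agent.CPT.HitStmt) (hSBL : SblStmt) (hNMB : NmbStmt) : HsmStmt := by
  intro E _ _ n s M F hM hF hch
  have hM0 : (M : E) ≠ 0 := by
    exact_mod_cast (by omega : M ≠ 0)
  set φ : MvPolynomial (Fin n) E →ₐ[E] MvPolynomial (Fin n) E :=
    aeval (fun i => C (M : E) * X i) with hφ
  have hφF : φ F ≠ 0 := by
    intro h0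
    apply hF
    set ψ : MvPolynomial (Fin n) E →ₐ[E] MvPolynomial (Fin n) E :=
      aeval (fun i => C ((M : E)⁻¹) * X i) with hψ
    have hcomp : ψ.comp φ = AlgHom.id E _ := by
      refine MvPolynomial.algHom_ext ?_
      intro i
      simp only [AlgHom.comp_apply, hφ, hψ, aeval_X, map_mul, AlgHom.id_apply]
      rw [show (aeval fun i => C ((M : E)⁻¹) * X i : MvPolynomial (Fin n) E →ₐ[E]
        MvPolynomial (Fin n) E) (C (M : E)) = C (M : E) from by simp [algHom_C]]
      rw [← mul_assoc, ← C_mul, mul_inv_cancel₀ hM0, C_1, one_mul]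
    have h1 : ψ (φ F) = F := by
      rw [← AlgHom.comp_apply, hcomp, AlgHom.id_apply]
    rw [← h1, h0, map_zero]
  have hcheap : IsCheapF E n s (φ F) := by
    refine hSBL E n n s F φ hch ?_
    intro i
    rw [hφ, aeval_X, ← smul_eq_C_mul]
    refine Submodule.smul_mem _ _ (Submodule.subset_span ?_)
    exact Or.inl (Or.inr ⟨i, rfl⟩)
  obtain ⟨t, ht, c, hc, hev⟩ := hHIT E n s (φ F) hφF hcheap
  have hmem : (t, c) ∈ prs n s := ((hNMB n s).1 t c).mpr ⟨ht, hc⟩
  obtain ⟨j, hj⟩ := List.mem_iff_get.mp hmem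
  refine ⟨j, ?_⟩
  rw [hj]
  have hev2 : eval (fun i : Fin n => pt E (2 * s + 1) t c i) (φ F) =
      eval (fun i : Fin n => (M : E) * pt E (2 * s + 1) t c i) F := by
    have h2 : (eval (fun i : Fin n => pt E (2 * s + 1) t c i)).comp φ.toRingHom =
        eval (fun i : Fin n => (M : E) * pt E (2 * s + 1) t c i) := by
      refine MvPolynomial.ringHom_ext ?_ ?_
      · intro r
        simp [hφ, algHom_C]
      · intro i
        simp [hφ]
    exact congrArg (fun g => g F) h2
  rw [← hev2]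
  exact hev

end Pool.Agent.CPT.H25
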